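import Mathlib
import Pool.Agent.CPT.StmtsB

set_option autoImplicit false

/-! CHA: the chain rule. -/

namespace Pool.Agent.CPT.H91

theorem cha : ChaStmt := by
  intro E S _ _ e D hD m x F
  induction F using MvPolynomial.induction_on with
  | C a =>
    simp [hD a]
  | add p q hp hq =>
    simp only [map_add, hp, hq]
    rw [← Finset.sum_add_distrib]
    exact Finset.sum_congr rfl fun i _ => by ring
  | mul_X p j hp =>
    rw [map_mul, Derivation.leibniz, hp]
    simp only [MvPolynomial.coe_eval₂Hom, MvPolynomial.eval₂_X, smul_eq_mul, Finset.mul_sum]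
    have h : ∀ i, MvPolynomial.eval₂ e x ((MvPolynomial.pderiv i) (p * MvPolynomial.X j)) * D (x i)
        = (if i = j then MvPolynomial.eval₂ e x p * D (x j) else 0) +
          x j * (MvPolynomial.eval₂ e x ((MvPolynomial.pderiv i) p) * D (x i)) := by
      intro i
      rw [Derivation.leibniz, MvPolynomial.pderiv_X]
      by_cases hij : i = j
      · subst hij
        simp only [Pi.single_eq_same, smul_eq_mul, mul_one, MvPolynomial.eval₂_add,
          MvPolynomial.eval₂_mul, MvPolynomial.eval₂_X, if_true]
        ring
      · rw [if_neg hij, Pi.single_eq_of_ne (Ne.symm hij)]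
        simp only [smul_eq_mul, mul_zero, zero_add, MvPolynomial.eval₂_mul, MvPolynomial.eval₂_X]
        ring
    rw [Finset.sum_congr rfl fun i _ => h i, Finset.sum_add_distrib]
    simp

end Pool.Agent.CPT.H91
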